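import Pool.Agent.Lib.MP_6bc78b_nt.MS.P5.Iface

/-! Project MS, Part V: CMB, a combinatorial inequality for Dirichlet powers. -/

set_option autoImplicit false

open Filter Topology ArithmeticFunction

namespace Pool.Agent.Lib.MP_6bc78b_nt.MS.P5.H97

open Pool.Agent.Lib.MP_6bc78b_nt.MS Pool.Agent.Lib.MP_6bc78b_nt.MS.P5

lemma pow_nonneg' (f : ArithmeticFunction ℝ) (h0 : ∀ n, 0 ≤ f n) (k n : ℕ) : 0 ≤ (f ^ k) n := by
  induction k generalizing n with
  | zero =>
    rw [pow_zero, ArithmeticFunction.one_apply]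
    split_ifs <;> norm_num
  | succ k ih =>
    rw [pow_succ', ArithmeticFunction.mul_apply]
    exact Finset.sum_nonneg fun x _ => mul_nonneg (h0 _) (ih _)

lemma omega_eq (f : ArithmeticFunction ℝ) (hp : ∀ n, f n ≠ 0 → n.Prime) (k n : ℕ)
    (h : (f ^ k) n ≠ 0) : ArithmeticFunction.cardFactors n = k ∧ n ≠ 0 := by
  induction k generalizing n with
  | zero =>
    rw [pow_zero, ArithmeticFunction.one_apply] at h
    have h1 : n = 1 := by
      by_contra h1
      rw [if_neg h1] at h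
      exact h rfl
    subst h1
    exact ⟨ArithmeticFunction.cardFactors_one, one_ne_zero⟩
  | succ k ih =>
    rw [pow_succ', ArithmeticFunction.mul_apply] at h
    obtain ⟨x, hx, hx'⟩ := Finset.exists_ne_zero_of_sum_ne_zero h
    rw [Nat.mem_divisorsAntidiagonal] at hx
    have h1 := hp _ (left_ne_zero_of_mul hx')
    obtain ⟨h2, h3⟩ := ih _ (right_ne_zero_of_mul hx')
    refine ⟨?_, hx.2⟩
    rw [← hx.1, ArithmeticFunction.cardFactors_mul h1.ne_zero h3, h2,
      ArithmeticFunction.cardFactors_apply_prime h1, add_comm]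

lemma sq_le (f : ArithmeticFunction ℝ) (h0 : ∀ n, 0 ≤ f n) (hp : ∀ n, f n ≠ 0 → n.Prime)
    (k n : ℕ) : (f ^ k) n ^ 2 ≤ (k.factorial : ℝ) * ((f.pmul f) ^ k) n := by
  classical
  have hg0 : ∀ n, 0 ≤ (f.pmul f) n := fun n => by
    rw [ArithmeticFunction.pmul_apply]
    exact mul_nonneg (h0 n) (h0 n)
  induction k generalizing n with
  | zero =>
    rw [pow_zero, pow_zero, ArithmeticFunction.one_apply]
    split_ifs <;> simp
  | succ k ih =>
    have e1 : (f ^ (k+1)) n = ∑ x ∈ n.divisorsAntidiagonal, f x.1 * (f ^ k) x.2 := by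
      rw [pow_succ', ArithmeticFunction.mul_apply]
    have e2 : ((f.pmul f) ^ (k+1)) n =
        ∑ x ∈ n.divisorsAntidiagonal, (f.pmul f) x.1 * ((f.pmul f) ^ k) x.2 := by
      rw [pow_succ', ArithmeticFunction.mul_apply]
    rw [e1, e2]
    set S := n.divisorsAntidiagonal.filter (fun x => f x.1 * (f ^ k) x.2 ≠ 0) with hS
    have h1 : ∑ x ∈ n.divisorsAntidiagonal, f x.1 * (f ^ k) x.2 = ∑ x ∈ S, f x.1 * (f ^ k) x.2 :=
      (Finset.sum_filter_ne_zero _).symm
    rw [h1]
    have hcard : (S.card : ℝ) ≤ (k + 1 : ℕ) := by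
      have h2 : S.card ≤ k + 1 := by
        rcases S.eq_empty_or_nonempty with h | ⟨x₀, hx₀⟩
        · rw [h, Finset.card_empty]
          exact Nat.zero_le _
        · have hx₀' := (Finset.mem_filter.1 hx₀)
          have hx₀a := Nat.mem_divisorsAntidiagonal.1 hx₀'.1
          have hpr := hp _ (left_ne_zero_of_mul hx₀'.2)
          obtain ⟨h2, h3⟩ := omega_eq f hp k _ (right_ne_zero_of_mul hx₀'.2)
          have hΩ : ArithmeticFunction.cardFactors n = k + 1 := by
            rw [← hx₀a.1, ArithmeticFunction.cardFactors_mul hpr.ne_zero h3, h2,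
              ArithmeticFunction.cardFactors_apply_prime hpr, add_comm]
          have h4 : S.card ≤ n.primeFactors.card := by
            refine Finset.card_le_card_of_injOn Prod.fst ?_ ?_
            · intro x hx
              have hx' := Finset.mem_filter.1 (Finset.mem_coe.1 hx)
              have hxa := Nat.mem_divisorsAntidiagonal.1 hx'.1
              rw [Finset.mem_coe, Nat.mem_primeFactors]
              exact ⟨hp _ (left_ne_zero_of_mul hx'.2), ⟨x.2, hxa.1.symm⟩, hxa.2⟩
            · intro x hx y hy hxy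
              have hx' := Finset.mem_filter.1 (Finset.mem_coe.1 hx)
              have hxa := Nat.mem_divisorsAntidiagonal.1 hx'.1
              have hy' := Finset.mem_filter.1 (Finset.mem_coe.1 hy)
              have hya := Nat.mem_divisorsAntidiagonal.1 hy'.1
              have hpx := hp _ (left_ne_zero_of_mul hx'.2)
              apply Prod.ext hxy
              apply Nat.eq_of_mul_eq_mul_left hpx.pos
              rw [hxa.1, hxy, hya.1]
          have h5 : n.primeFactors.card ≤ ArithmeticFunction.cardFactors n :=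
            n.primeFactorsList.toFinset_card_le
          omega
      exact_mod_cast h2
    calc (∑ x ∈ S, f x.1 * (f ^ k) x.2) ^ 2
        ≤ (S.card : ℝ) * ∑ x ∈ S, (f x.1 * (f ^ k) x.2) ^ 2 := sq_sum_le_card_mul_sum_sq
      _ ≤ ((k + 1 : ℕ) : ℝ) * ∑ x ∈ S, (f x.1 * (f ^ k) x.2) ^ 2 :=
          mul_le_mul_of_nonneg_right hcard (Finset.sum_nonneg fun _ _ => sq_nonneg _)
      _ ≤ ((k + 1 : ℕ) : ℝ) * ∑ x ∈ n.divisorsAntidiagonal,
            (k.factorial : ℝ) * ((f.pmul f) x.1 * ((f.pmul f) ^ k) x.2) := by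
          refine mul_le_mul_of_nonneg_left ?_ (by positivity)
          refine (Finset.sum_le_sum (fun x _ => ?_)).trans
            (Finset.sum_le_sum_of_subset_of_nonneg (Finset.filter_subset _ _) fun x _ _ => ?_)
          · rw [mul_pow, ArithmeticFunction.pmul_apply]
            calc f x.1 ^ 2 * (f ^ k) x.2 ^ 2
                ≤ f x.1 ^ 2 * ((k.factorial : ℝ) * ((f.pmul f) ^ k) x.2) :=
                  mul_le_mul_of_nonneg_left (ih x.2) (sq_nonneg _)
              _ = _ := by ring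
          · exact mul_nonneg (by positivity) (mul_nonneg (hg0 _) (pow_nonneg' _ hg0 k _))
      _ = ((k + 1).factorial : ℝ) * ∑ x ∈ n.divisorsAntidiagonal,
            (f.pmul f) x.1 * ((f.pmul f) ^ k) x.2 := by
          rw [← Finset.mul_sum, Nat.factorial_succ]
          push_cast
          ring

lemma sum_le (g : ArithmeticFunction ℝ) (h0 : ∀ n, 0 ≤ g n) (N : ℕ) (hN : ∀ n, g n ≠ 0 → n ≤ N)
    (k M : ℕ) : ∑ n ∈ Finset.Icc 1 M, (g ^ k) n / (n : ℝ) ≤
      (∑ p ∈ Finset.Icc 1 N, g p / (p : ℝ)) ^ k := by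
  classical
  have hA0 : 0 ≤ ∑ p ∈ Finset.Icc 1 N, g p / (p : ℝ) :=
    Finset.sum_nonneg fun p _ => div_nonneg (h0 p) (Nat.cast_nonneg p)
  induction k generalizing M with
  | zero =>
    rw [pow_zero, pow_zero]
    have h1 : ∑ n ∈ Finset.Icc 1 M, ((1 : ArithmeticFunction ℝ) n) / (n : ℝ) ≤
        ∑ n ∈ Finset.Icc 1 M, (if n = 1 then (1 : ℝ) else 0) := by
      refine Finset.sum_le_sum fun n _ => ?_
      rw [ArithmeticFunction.one_apply]
      split_ifs with h
      · rw [h]
        norm_num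
      · rw [zero_div]
    refine h1.trans ?_
    rw [Finset.sum_ite_eq']
    split_ifs <;> norm_num
  | succ k ih =>
    have h1 : ∀ n ∈ Finset.Icc 1 M, (g ^ (k + 1)) n / (n : ℝ) =
        ∑ x ∈ n.divisorsAntidiagonal, (g x.1 / (x.1 : ℝ)) * ((g ^ k) x.2 / (x.2 : ℝ)) := by
      intro n _
      rw [pow_succ', ArithmeticFunction.mul_apply, Finset.sum_div]
      refine Finset.sum_congr rfl fun x hx => ?_
      have hxa := Nat.mem_divisorsAntidiagonal.1 hx
      rw [← hxa.1, Nat.cast_mul, mul_div_mul_comm]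
    rw [Finset.sum_congr rfl h1]
    have hnn : ∀ x : ℕ × ℕ, 0 ≤ (g x.1 / (x.1 : ℝ)) * ((g ^ k) x.2 / (x.2 : ℝ)) := fun x =>
      mul_nonneg (div_nonneg (h0 _) (Nat.cast_nonneg _))
        (div_nonneg (pow_nonneg' g h0 k _) (Nat.cast_nonneg _))
    rw [← Finset.sum_biUnion (by
      intro a _ b _ hab
      rw [Function.onFun, Finset.disjoint_left]
      intro x hx hx'
      exact hab ((Nat.mem_divisorsAntidiagonal.1 hx).1.symm.trans
        (Nat.mem_divisorsAntidiagonal.1 hx').1))]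
    have h2 : (Finset.Icc 1 M).biUnion Nat.divisorsAntidiagonal ⊆
        Finset.Icc 1 M ×ˢ Finset.Icc 1 M := by
      intro x hx
      rw [Finset.mem_biUnion] at hx
      obtain ⟨n, hn, hx⟩ := hx
      rw [Finset.mem_Icc] at hn
      have hxa := Nat.mem_divisorsAntidiagonal.1 hx
      have hx1 : x.1 ≠ 0 := by
        intro h
        rw [h, zero_mul] at hxa
        exact hxa.2 hxa.1.symm
      have hx2 : x.2 ≠ 0 := by
        intro h
        rw [h, mul_zero] at hxa
        exact hxa.2 hxa.1.symm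
      have hn0 : 0 < n := by omega
      have l1 : x.1 ≤ n := Nat.le_of_dvd hn0 ⟨x.2, hxa.1.symm⟩
      have l2 : x.2 ≤ n := Nat.le_of_dvd hn0 ⟨x.1, by rw [mul_comm]; exact hxa.1.symm⟩
      rw [Finset.mem_product, Finset.mem_Icc, Finset.mem_Icc]
      omega
    refine (Finset.sum_le_sum_of_subset_of_nonneg h2 fun x _ _ => hnn x).trans ?_
    rw [Finset.sum_product, pow_succ']
    have h3 : ∑ d ∈ Finset.Icc 1 M, ∑ e ∈ Finset.Icc 1 M, (g d / (d : ℝ)) * ((g ^ k) e / (e : ℝ)) =
        (∑ d ∈ Finset.Icc 1 M, g d / (d : ℝ)) * ∑ e ∈ Finset.Icc 1 M, (g ^ k) e / (e : ℝ) := by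
      rw [Finset.sum_mul_sum]
    rw [h3]
    have h4 : ∑ d ∈ Finset.Icc 1 M, g d / (d : ℝ) ≤ ∑ p ∈ Finset.Icc 1 N, g p / (p : ℝ) := by
      rw [← Finset.sum_filter_ne_zero]
      refine Finset.sum_le_sum_of_subset_of_nonneg ?_ fun p _ _ =>
        div_nonneg (h0 p) (Nat.cast_nonneg p)
      intro d hd
      rw [Finset.mem_filter, Finset.mem_Icc] at hd
      rw [Finset.mem_Icc]
      refine ⟨hd.1.1, hN d ?_⟩
      intro h
      apply hd.2
      rw [h, zero_div]
    exact mul_le_mul h4 (ih M) (Finset.sum_nonneg fun e _ =>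
      div_nonneg (pow_nonneg' g h0 k _) (Nat.cast_nonneg _)) hA0

/-- CMB -/
theorem cmb : CmbStatement := by
  intro f N M k h0 hf
  have hg0 : ∀ n, 0 ≤ (f.pmul f) n := fun n => by
    rw [ArithmeticFunction.pmul_apply]
    exact mul_nonneg (h0 n) (h0 n)
  have h1 : ∑ n ∈ Finset.Icc 1 M, (f ^ k) n ^ 2 / (n : ℝ) ≤
      (k.factorial : ℝ) * ∑ n ∈ Finset.Icc 1 M, ((f.pmul f) ^ k) n / (n : ℝ) := by
    rw [Finset.mul_sum]
    refine Finset.sum_le_sum fun n _ => ?_
    rw [← mul_div_assoc]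
    exact div_le_div_of_nonneg_right (sq_le f h0 (fun n hn => (hf n hn).1) k n)
      (Nat.cast_nonneg n)
  refine h1.trans (mul_le_mul_of_nonneg_left ?_ (by positivity))
  have h2 := sum_le (f.pmul f) hg0 N (fun n hn => by
    rw [ArithmeticFunction.pmul_apply] at hn
    exact (hf n (left_ne_zero_of_mul hn)).2) k M
  refine h2.trans (le_of_eq ?_)
  congr 1
  refine Finset.sum_congr rfl fun p _ => ?_
  rw [ArithmeticFunction.pmul_apply, sq]

end Pool.Agent.Lib.MP_6bc78b_nt.MS.P5.H97
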